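import Pool.Agent.W223.RD.Stms

set_option autoImplicit false

/-! D6 of the project RD (second attempt): few smooth integers. -/

namespace Pool.Agent.W891.RD
open Finset
open Pool.Agent.W223.RD

theorem tD6 : StmtD6 := by
  classical
  refine ⟨Real.exp 125, by have := Real.add_one_le_exp (125 : ℝ); linarith, fun X hX => ?_⟩
  set T := Real.log X ^ ((1:ℝ)/3) with hT
  have hX0 : 0 < X := lt_of_lt_of_le (Real.exp_pos _) hX
  have hL : 125 ≤ Real.log X := (Real.le_log_iff_exp_le hX0).2 hX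
  have hT5 : 5 ≤ T := by
    have h5 : (5:ℝ) = (125:ℝ)^((1:ℝ)/3) := by
      rw [show (125:ℝ) = 5^(3:ℝ) by norm_num, ← Real.rpow_mul (by norm_num)]; norm_num
    rw [h5]; exact Real.rpow_le_rpow (by norm_num) hL (by norm_num)
  have hT3 : T^3 = Real.log X := by
    rw [hT, ← Real.rpow_natCast, ← Real.rpow_mul (by linarith)]; norm_num
  have hT0 : 0 < T := by linarith
  set α : ℝ := 1 / T with hα
  have hα0 : 0 < α := by positivity
  have hα1 : α ≤ 1 := by rw [hα, div_le_one hT0]; linarith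
  set N := ⌊Real.exp T⌋₊ with hN
  set P := (Finset.range (N+1)).filter Nat.Prime with hP
  set S := {R : ℕ | 1 ≤ R ∧ (R : ℝ) ≤ X ∧ Squarefree R ∧ ∀ p : ℕ, p.Prime → p ∣ R →
    (p : ℝ) ≤ Real.exp T} with hS
  have hfin : S.Finite := by
    refine (Set.finite_Iic ⌊X⌋₊).subset ?_
    rintro R ⟨_, h2, _⟩
    exact Nat.le_floor h2
  rw [Set.ncard_eq_toFinset_card S hfin]
  set S' := hfin.toFinset with hS'
  have hmem : ∀ R ∈ S', 1 ≤ R ∧ (R : ℝ) ≤ X ∧ Squarefree R ∧ ∀ p : ℕ, p.Prime → p ∣ R →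
    (p : ℝ) ≤ Real.exp T := by
    intro R hR
    exact hfin.mem_toFinset.1 hR
  have h1 : (S'.card : ℝ) ≤ X ^ (1 - α) * ∑ R ∈ S', ∏ p ∈ R.primeFactors, (p : ℝ) ^ (α - 1) := by
    rw [Finset.mul_sum, Finset.cast_card]
    refine Finset.sum_le_sum fun R hR => ?_
    obtain ⟨hR1, hR2, hR3, _⟩ := hmem R hR
    have hRpos : (0 : ℝ) < R := by exact_mod_cast hR1
    have e1 : ∏ p ∈ R.primeFactors, (p : ℝ) ^ (α - 1) = (R : ℝ) ^ (α - 1) := by
      rw [Real.finsetProd_rpow _ _ (fun i _ => Nat.cast_nonneg i), ← Nat.cast_prod,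
        Nat.prod_primeFactors_of_squarefree hR3]
    rw [e1, show α - 1 = -(1 - α) by ring, Real.rpow_neg hRpos.le, ← div_eq_mul_inv,
      one_le_div (Real.rpow_pos_of_pos hRpos _)]
    exact Real.rpow_le_rpow hRpos.le hR2 (by linarith)
  have h2 : ∑ R ∈ S', ∏ p ∈ R.primeFactors, (p : ℝ) ^ (α - 1) ≤
      ∏ p ∈ P, (1 + (p : ℝ) ^ (α - 1)) := by
    have hinj : Set.InjOn (fun R : ℕ => R.primeFactors) (S' : Set ℕ) := by
      intro a ha b hb hab
      have ha' := Nat.prod_primeFactors_of_squarefree (hmem a ha).2.2.1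
      have hb' := Nat.prod_primeFactors_of_squarefree (hmem b hb).2.2.1
      have hab' : a.primeFactors = b.primeFactors := hab
      rw [← ha', ← hb', hab']
    rw [Finset.prod_one_add]
    rw [← Finset.sum_image (f := fun A : Finset ℕ => ∏ p ∈ A, (p : ℝ) ^ (α - 1)) hinj]
    refine Finset.sum_le_sum_of_subset_of_nonneg ?_ ?_
    · intro A hA
      obtain ⟨R, hR, rfl⟩ := Finset.mem_image.1 hA
      rw [Finset.mem_powerset]
      intro p hp
      have hpp := Nat.prime_of_mem_primeFactors hp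
      have hpd := Nat.dvd_of_mem_primeFactors hp
      rw [hP, Finset.mem_filter, Finset.mem_range]
      exact ⟨Nat.lt_succ_of_le (Nat.le_floor ((hmem R hR).2.2.2 p hpp hpd)), hpp⟩
    · intro A _ _
      exact Finset.prod_nonneg fun p _ => Real.rpow_nonneg (Nat.cast_nonneg p) _
  have h3 : ∏ p ∈ P, (1 + (p : ℝ) ^ (α - 1)) ≤ Real.exp (∑ p ∈ P, (p : ℝ) ^ (α - 1)) := by
    rw [Real.exp_sum]
    refine Finset.prod_le_prod (fun p _ => ?_) (fun p _ => ?_)
    · have := Real.rpow_nonneg (Nat.cast_nonneg p : (0:ℝ) ≤ p) (α - 1); linarith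
    · rw [add_comm]; exact Real.add_one_le_exp _
  have h4 : ∑ p ∈ P, (p : ℝ) ^ (α - 1) ≤ 3 * (1 + T) := by
    have e1 : ∀ p ∈ P, (p : ℝ) ^ (α - 1) ≤ 3 * (p : ℝ)⁻¹ := by
      intro p hp
      rw [hP, Finset.mem_filter, Finset.mem_range] at hp
      have hp0 : (0 : ℝ) < p := by exact_mod_cast hp.2.pos
      have hpN : p ≤ N := Nat.lt_succ_iff.1 hp.1
      have hpY : (p : ℝ) ≤ Real.exp T :=
        (Nat.cast_le.2 hpN).trans (Nat.floor_le (Real.exp_pos T).le)
      rw [Real.rpow_sub hp0, Real.rpow_one, div_eq_mul_inv]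
      refine mul_le_mul_of_nonneg_right ?_ (inv_nonneg.2 hp0.le)
      calc (p : ℝ) ^ α ≤ (Real.exp T) ^ α := Real.rpow_le_rpow hp0.le hpY hα0.le
        _ = Real.exp 1 := by
          rw [← Real.exp_mul, hα, mul_one_div_cancel hT0.ne']
        _ ≤ 3 := by have := Real.exp_one_lt_d9; linarith
    calc ∑ p ∈ P, (p : ℝ) ^ (α - 1) ≤ ∑ p ∈ P, 3 * (p : ℝ)⁻¹ := Finset.sum_le_sum e1
      _ = 3 * ∑ p ∈ P, (p : ℝ)⁻¹ := by rw [Finset.mul_sum]
      _ ≤ 3 * ∑ p ∈ Finset.Icc 1 N, (p : ℝ)⁻¹ := by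
        refine mul_le_mul_of_nonneg_left ?_ (by norm_num)
        refine Finset.sum_le_sum_of_subset_of_nonneg ?_ ?_
        · intro p hp
          rw [hP, Finset.mem_filter, Finset.mem_range] at hp
          rw [Finset.mem_Icc]
          exact ⟨hp.2.pos, Nat.lt_succ_iff.1 hp.1⟩
        · intro p _ _
          positivity
      _ ≤ 3 * (1 + T) := by
        refine mul_le_mul_of_nonneg_left ?_ (by norm_num)
        have hh := harmonic_floor_le_one_add_log (Real.exp T) (Real.one_le_exp hT0.le)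
        rw [Real.log_exp] at hh
        refine le_trans (le_of_eq ?_) hh
        rw [harmonic_eq_sum_Icc]
        push_cast
        rfl
  have h5 : X ^ (1 - α) = X * Real.exp (-T^2) := by
    rw [Real.rpow_sub hX0, Real.rpow_one, div_eq_mul_inv]
    congr 1
    rw [Real.rpow_def_of_pos hX0, ← hT3, ← Real.exp_neg]
    congr 1
    rw [hα]
    field_simp
  calc (S'.card : ℝ) ≤ X ^ (1 - α) * ∑ R ∈ S', ∏ p ∈ R.primeFactors, (p : ℝ) ^ (α - 1) := h1
    _ ≤ X ^ (1 - α) * Real.exp (3 * (1 + T)) := by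
      refine mul_le_mul_of_nonneg_left ?_ (Real.rpow_nonneg hX0.le _)
      exact h2.trans (h3.trans (Real.exp_le_exp.2 h4))
    _ = X * Real.exp (-T^2 + 3 * (1 + T)) := by
      rw [h5, mul_assoc, ← Real.exp_add]
    _ ≤ X * Real.exp (-(T / 90)) := by
      refine mul_le_mul_of_nonneg_left ?_ hX0.le
      rw [Real.exp_le_exp]
      nlinarith

end Pool.Agent.W891.RD
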